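import Pool.Agent.Helper16.Curl.Tail

set_option autoImplicit false

/-! # Flights of cubes

A word `w` whose late letters are its curling numbers, all `≥ 2`, cannot eventually avoid adjacent
letters `≥ 3`. Every late letter `≥ 3` at `i` is a `3` preceded by a cube `[i - 3 p, i)` of length exactly
`3 p`; the left neighbour of the cube is again a letter `≠ 2`, and the map from `i` to the left end
`i - 3 p` (the start of the flight) is injective. Hence the number of flights above a point is bounded,
while arbitrarily high stacks of flights exist. -/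

namespace Pool.Agent.CurlB

open Pool.Agent.Helper16.Curl

/-- The late letters are curling numbers `≥ 2`, and from `T` on no two adjacent letters are `≥ 3`. -/
structure Sep (w : ℕ → ℤ) (N T : ℕ) : Prop where
  tail : Tail w N
  hT : N + 1 ≤ T
  sep : ∀ t, T ≤ t → 3 ≤ w t → 3 ≤ w (t + 1) → False

/-- A late letter `≥ 3`. -/
def Hv (w : ℕ → ℤ) (T i : ℕ) : Prop := T + 1 ≤ i ∧ 3 ≤ w i

/-- A period of a cube at the end of the initial segment of length `i`. -/
noncomputable def pr (w : ℕ → ℤ) (i : ℕ) : ℕ :=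
  letI := Classical.propDecidable (∃ p, Rep w i p 3)
  if h : ∃ p, Rep w i p 3 then Classical.choose h else 0

theorem pr_spec {w : ℕ → ℤ} {i : ℕ} (h : ∃ p, Rep w i p 3) : Rep w i (pr w i) 3 := by
  unfold pr
  rw [dif_pos h]
  exact Classical.choose_spec h

namespace Sep

variable {w : ℕ → ℤ} {N T : ℕ}

theorem prev (h : Sep w N T) {i : ℕ} (hi : Hv w T i) : w (i - 1) = 2 := by
  obtain ⟨h1, h2⟩ := hi
  have h0 := h.hT
  have h3 := h.tail.2.2 (i - 1) (by omega)
  by_contra h4
  refine h.sep (i - 1) (by omega) (by omega) ?_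
  have : i - 1 + 1 = i := by omega
  rwa [this]

theorem eq_three (h : Sep w N T) {i : ℕ} (hi : Hv w T i) : w i = 3 := by
  have h1 := h.prev hi
  have h0 := h.hT
  obtain ⟨h2, h3⟩ := hi
  have h4 := h.tail.2.1 (i - 1) (by omega)
  have h5 := h.tail.2.1 i (by omega)
  have h6 := K_succ_le (w := w) (n := i - 1) (by omega)
  have h7 : i - 1 + 1 = i := by omega
  rw [h7] at h6
  rw [h1] at h4
  have h8 : K w (i - 1) = 2 := by exact_mod_cast h4.symm
  rw [h5] at h3 ⊢
  have h9 : 3 ≤ K w i := by exact_mod_cast h3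
  have : K w i = 3 := by omega
  rw [this]
  rfl

theorem two_or (h : Sep w N T) {i : ℕ} (hi : T + 1 ≤ i) : w i = 2 ∨ w i = 3 := by
  have h0 := h.hT
  have h1 := h.tail.2.2 i (by omega)
  by_cases h2 : 3 ≤ w i
  · exact Or.inr (h.eq_three ⟨hi, h2⟩)
  · exact Or.inl (by omega)

theorem cube (h : Sep w N T) {i : ℕ} (hi : Hv w T i) : Rep w i (pr w i) 3 := by
  have h0 := h.hT
  obtain ⟨h1, h2⟩ := hi
  exact pr_spec (h.tail.rep_of_le (by omega) (by exact_mod_cast h2))

/-- The left neighbour of the cube is not a `2`. -/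
theorem base (h : Sep w N T) {i p : ℕ} (hi : Hv w T i) (hp : Rep w i p 3) (hl : 1 ≤ i - 3 * p) :
    w (i - 3 * p - 1) ≠ 2 := by
  intro h1
  have h2 := h.prev hi
  have h0 := h.hT
  have hit := hp.iter
  obtain ⟨hp0, hp1, hp2⟩ := hp
  have h3 : Rep w (i - 1) p 3 := by
    refine ⟨hp0, by omega, ?_⟩
    intro j hj hj2
    by_cases hc : j = i - 3 * p - 1
    · subst hc
      have h4 := hit 2 (i - 3 * p - 1 + p) (by omega) (by omega)
      have h5 : i - 3 * p - 1 + p + 2 * p = i - 1 := by omega
      rw [h5, h2] at h4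
      rw [h1, h4]
    · exact hp2 j (by omega) (by omega)
  have h4 := h.tail.le_of_rep (by have := hi.1; omega) h3
  rw [h2] at h4
  norm_num at h4

/-- Two different late letters `≥ 3` have cubes with different left ends. -/
theorem inj (h : Sep w N T) {i i' p p' : ℕ} (hi : Hv w T i) (hi' : Hv w T i') (hp : Rep w i p 3)
    (hp' : Rep w i' p' 3) (hlt : i < i') (hl : i - 3 * p = i' - 3 * p') : False := by
  have h0 := h.hT
  have e1 := h.prev hi
  have e2 := h.prev hi'
  have e3 := h.eq_three hi
  have hiT := hi.1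
  have hit := hp.iter
  have hit' := hp'.iter
  obtain ⟨hp0, hp1, hp2⟩ := hp
  obtain ⟨hp0', hp1', hp2'⟩ := hp'
  obtain ⟨l, hl0⟩ : ∃ l, l = i - 3 * p := ⟨_, rfl⟩
  have ei : i = l + 3 * p := by omega
  have ei' : i' = l + 3 * p' := by omega
  subst ei
  subst ei'
  have hpp : p < p' := by omega
  -- the periods are far apart
  have hfar : 3 * p ≤ 2 * p' := by
    by_contra hc
    have hfw := fineWilf (w := w) (p + p') p p' l (l + 3 * p) rfl hp0 hp0' (by omega)
      (fun j hj hj2 => hp2 j (by omega) hj2) (fun j hj hj2 => hp2' j (by omega) (by omega))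
    obtain ⟨d, hd⟩ : ∃ d, d = Nat.gcd p p' := ⟨_, rfl⟩
    rw [← hd] at hfw
    have hd1 : d ∣ p := by rw [hd]; exact Nat.gcd_dvd_left p p'
    have hd2 : d ∣ p' := by rw [hd]; exact Nat.gcd_dvd_right p p'
    have hd3 : d ∣ p' - p := Nat.dvd_sub hd2 hd1
    have hd4 : d ≤ p' - p := Nat.le_of_dvd (by omega) hd3
    have hd0 : 0 < d := Nat.pos_of_dvd_of_pos hd1 hp0
    have hrep : Rep w (l + 3 * p) d 4 := by
      refine ⟨hd0, by omega, ?_⟩
      intro j hj hj2
      exact hfw j (by omega) hj2
    have h4 := h.tail.le_of_rep (by omega) hrep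
    rw [e3] at h4
    norm_num at h4
  -- the cube extends to the left in its copy
  have f1 : w (l + p - 1) = 2 := by
    have h4 := hit 2 (l + p - 1) (by omega) (by omega)
    have h5 : l + p - 1 + 2 * p = l + 3 * p - 1 := by omega
    rw [h4, h5, e1]
  have f2 : w (l + p' - 1) = 2 := by
    have h4 := hit' 2 (l + p' - 1) (by omega) (by omega)
    have h5 : l + p' - 1 + 2 * p' = l + 3 * p' - 1 := by omega
    rw [h4, h5, e2]
  have hrep : Rep w (l + p' + 3 * p - 1) p 3 := by
    refine ⟨hp0, by omega, ?_⟩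
    intro j hj hj2
    by_cases hc : j = l + p' - 1
    · subst hc
      have h4 := hp2' (l + p - 1) (by omega) (by omega)
      have h5 : l + p - 1 + p' = l + p' - 1 + p := by omega
      rw [h5, f1] at h4
      rw [f2, ← h4]
    · obtain ⟨m, rfl⟩ : ∃ m, j = m + p' := ⟨j - p', by omega⟩
      have h4 := hp2' m (by omega) (by omega)
      have h5 := hp2' (m + p) (by omega) (by omega)
      have h6 := hp2 m (by omega) (by omega)
      have h7 : m + p + p' = m + p' + p := by omega
      rw [h7] at h5
      rw [← h4, ← h5, h6]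
  have h4 := h.tail.le_of_rep (by omega) hrep
  have h5 := hp2' (l + 3 * p - 1) (by omega) (by omega)
  have h6 : l + 3 * p - 1 + p' = l + p' + 3 * p - 1 := by omega
  rw [h6, e1] at h5
  rw [← h5] at h4
  norm_num at h4

/-- At most `T + 2` flights above a point. -/
theorem cross (h : Sep w N T) {a : ℕ} (ha : T + 1 ≤ a) (s : Finset ℕ)
    (hs : ∀ i ∈ s, Hv w T i ∧ i - 3 * pr w i ≤ a ∧ a ≤ i) : s.card ≤ T + 2 := by
  classical
  have h0 := h.hT
  obtain ⟨A, hA⟩ : ∃ A : Finset ℕ, A = (Finset.range a).filter (fun i => T + 1 ≤ i ∧ 3 ≤ w i) :=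
    ⟨_, rfl⟩
  have hAm : ∀ i, i ∈ A ↔ i < a ∧ Hv w T i := by
    intro i
    rw [hA, Finset.mem_filter, Finset.mem_range]
    rfl
  have hdisj : Disjoint s A := by
    rw [Finset.disjoint_left]
    intro i hi hi2
    have h1 := (hs i hi).2.2
    have h2 := ((hAm i).1 hi2).1
    omega
  have hU : ∀ i ∈ s ∪ A, Hv w T i ∧ i - 3 * pr w i ≤ a := by
    intro i hi
    rcases Finset.mem_union.1 hi with h1 | h1
    · exact ⟨(hs i h1).1, (hs i h1).2.1⟩
    · have h2 := (hAm i).1 h1
      exact ⟨h2.2, by omega⟩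
  obtain ⟨B, hB⟩ : ∃ B : Finset ℕ, B = insert 0
      (((Finset.range a).filter (fun b => w b ≠ 2)).image (fun b => b + 1)) := ⟨_, rfl⟩
  have hcard1 : (s ∪ A).card ≤ B.card := by
    refine Finset.card_le_card_of_injOn (fun i => i - 3 * pr w i) ?_ ?_
    · intro i hi
      have hi' : i ∈ s ∪ A := hi
      obtain ⟨h1, h2⟩ := hU i hi'
      have h3 := h.cube h1
      show i - 3 * pr w i ∈ B
      rw [hB, Finset.mem_insert, Finset.mem_image]
      rcases Nat.eq_zero_or_pos (i - 3 * pr w i) with h4 | h4
      · exact Or.inl h4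
      · refine Or.inr ⟨i - 3 * pr w i - 1, ?_, by omega⟩
        rw [Finset.mem_filter, Finset.mem_range]
        exact ⟨by omega, h.base h1 h3 h4⟩
    · intro i hi i' hi' he
      have hi2 : i ∈ s ∪ A := hi
      have hi2' : i' ∈ s ∪ A := hi'
      have he' : i - 3 * pr w i = i' - 3 * pr w i' := he
      obtain ⟨h1, h2⟩ := hU i hi2
      obtain ⟨h1', h2'⟩ := hU i' hi2'
      rcases lt_trichotomy i i' with h3 | h3 | h3
      · exact (h.inj h1 h1' (h.cube h1) (h.cube h1') h3 he').elim
      · exact h3
      · exact (h.inj h1' h1 (h.cube h1') (h.cube h1) h3 he'.symm).elim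
  have hcard2 : B.card ≤ ((Finset.range a).filter (fun b => w b ≠ 2)).card + 1 := by
    rw [hB]
    refine le_trans (Finset.card_insert_le _ _) ?_
    have := Finset.card_image_le (s := (Finset.range a).filter (fun b => w b ≠ 2))
      (f := fun b => b + 1)
    omega
  have hcard3 : ((Finset.range a).filter (fun b => w b ≠ 2)).card ≤ (T + 1) + A.card := by
    have hsub : (Finset.range a).filter (fun b => w b ≠ 2) ⊆ Finset.range (T + 1) ∪ A := by
      intro b hb
      rw [Finset.mem_filter, Finset.mem_range] at hb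
      rw [Finset.mem_union, Finset.mem_range]
      by_cases h1 : b < T + 1
      · exact Or.inl h1
      · right
        have h2 := h.tail.2.2 b (by omega)
        refine (hAm b).2 ⟨hb.1, by omega, ?_⟩
        have h3 := hb.2
        omega
    refine le_trans (Finset.card_le_card hsub) ?_
    refine le_trans (Finset.card_union_le _ _) ?_
    rw [Finset.card_range]
  have hcard4 := Finset.card_union_of_disjoint hdisj
  omega

/-- Long windows contain cubes of long periods. -/
theorem window (h : Sep w N T) (P : ℕ) : ∃ F : ℕ, ∀ a, T + 1 ≤ a →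
    ∃ i, a ≤ i ∧ i < a + F ∧ Hv w T i ∧ P < pr w i := by
  have h0 := h.hT
  obtain ⟨q, hq⟩ : ∃ q, q = 3 * P := ⟨_, rfl⟩
  obtain ⟨Z, hZ⟩ : ∃ Z, Z = 2 ^ q := ⟨_, rfl⟩
  refine ⟨q + 5 * Z + 6, ?_⟩
  intro a ha
  by_contra hno
  push Not at hno
  have det : ∀ x y, a ≤ x → a ≤ y → x + q < a + (q + 5 * Z + 6) → y + q < a + (q + 5 * Z + 6) →
      (∀ j < q, w (x + j) = w (y + j)) → w (x + q) = 3 → w (y + q) = 3 := by
    intro x y hx hy hx2 hy2 hxy hw
    have hH : Hv w T (x + q) := ⟨by omega, by omega⟩
    have h1 := hno (x + q) (by omega) hx2 hH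
    have h2 := h.cube hH
    have h3 : Rep w (y + q) (pr w (x + q)) 3 := h2.shift (by omega) hxy
    have h4 := h.tail.le_of_rep (by omega) h3
    have h5 : Hv w T (y + q) := ⟨by omega, by exact_mod_cast h4⟩
    exact h.eq_three h5
  have det2 : ∀ x y, a ≤ x → a ≤ y → x + q < a + (q + 5 * Z + 6) → y + q < a + (q + 5 * Z + 6) →
      (∀ j < q, w (x + j) = w (y + j)) → w (x + q) = w (y + q) := by
    intro x y hx hy hx2 hy2 hxy
    rcases h.two_or (i := x + q) (by omega) with h1 | h1
    · rcases h.two_or (i := y + q) (by omega) with h2 | h2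
      · rw [h1, h2]
      · have h3 := det y x hy hx hy2 hx2 (fun j hj => (hxy j hj).symm) h2
        rw [h3, h2]
    · rw [h1, det x y hx hy hx2 hy2 hxy h1]
  -- pigeonhole
  have hpig : ∃ x y : ℕ, x < y ∧ y ≤ Z ∧ ∀ j < q, w (a + x + j) = w (a + y + j) := by
    classical
    have hc : Fintype.card (Fin q → Bool) < Fintype.card (Fin (Z + 1)) := by
      simp only [Fintype.card_pi, Fintype.card_bool, Finset.prod_const, Finset.card_univ,
        Fintype.card_fin]
      omega
    obtain ⟨x, y, hxy, hf⟩ := Fintype.exists_ne_map_eq_of_card_lt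
      (fun (s : Fin (Z + 1)) => fun (j : Fin q) => decide (w (a + s.1 + j.1) = 3)) hc
    have hval : ∀ j < q, w (a + x.1 + j) = w (a + y.1 + j) := by
      intro j hj
      have h1 := congrFun hf ⟨j, hj⟩
      have h2 : (w (a + x.1 + j) = 3) ↔ (w (a + y.1 + j) = 3) := by
        simpa using h1
      rcases h.two_or (i := a + x.1 + j) (by omega) with h3 | h3
      · rcases h.two_or (i := a + y.1 + j) (by omega) with h4 | h4
        · rw [h3, h4]
        · have := h2.2 h4
          rw [h3] at this
          norm_num at this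
      · rw [h3, h2.1 h3]
    have hx := x.2
    have hy := y.2
    have hne : x.1 ≠ y.1 := fun e => hxy (Fin.ext e)
    rcases lt_or_gt_of_ne hne with h3 | h3
    · exact ⟨x.1, y.1, h3, by omega, hval⟩
    · exact ⟨y.1, x.1, h3, by omega, fun j hj => (hval j hj).symm⟩
  obtain ⟨x, y, hxy, hyZ, hval⟩ := hpig
  have hext : ∀ m, y + m < q + 5 * Z + 6 → w (a + x + m) = w (a + y + m) := by
    intro m
    induction m using Nat.strong_induction_on with
    | _ m ih =>
      intro hm
      by_cases hc : m < q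
      · exact hval m hc
      · obtain ⟨m', rfl⟩ : ∃ m', m = m' + q := ⟨m - q, by omega⟩
        have h1 := det2 (a + x + m') (a + y + m') (by omega) (by omega) (by omega) (by omega) (by
          intro j hj
          have h2 := ih (m' + j) (by omega) (by omega)
          have e1 : a + x + m' + j = a + x + (m' + j) := by ring
          have e2 : a + y + m' + j = a + y + (m' + j) := by ring
          rw [e1, e2, h2])
        have e1 : a + x + (m' + q) = a + x + m' + q := by ring
        have e2 : a + y + (m' + q) = a + y + m' + q := by ring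
        rw [e1, e2, h1]
  have hrep : Rep w (a + x + 4 * (y - x)) (y - x) 4 := by
    refine ⟨by omega, by omega, ?_⟩
    intro j hj hj2
    obtain ⟨m, rfl⟩ : ∃ m, j = a + x + m := ⟨j - (a + x), by omega⟩
    have h1 := hext m (by omega)
    have e1 : a + x + m + (y - x) = a + y + m := by omega
    rw [e1, h1]
  have h4 := h.tail.le_of_rep (by omega) hrep
  rcases h.two_or (i := a + x + 4 * (y - x)) (by omega) with h5 | h5
  · rw [h5] at h4
    norm_num at h4
  · rw [h5] at h4
    norm_num at h4

/-- Stacks of flights. -/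
theorem stack (h : Sep w N T) : ∀ k : ℕ, ∃ L : ℕ, ∀ a, T + 1 ≤ a → ∃ (c : ℕ) (s : Finset ℕ),
    s.card = k ∧ a ≤ c ∧ c ≤ a + L ∧
      ∀ i ∈ s, Hv w T i ∧ a ≤ i - 3 * pr w i ∧ i - 3 * pr w i ≤ c ∧ c ≤ i ∧ i ≤ a + L := by
  classical
  intro k
  induction k with
  | zero =>
    refine ⟨0, fun a _ => ⟨a, ∅, rfl, le_rfl, by omega, ?_⟩⟩
    intro i hi
    exact absurd hi (Finset.notMem_empty i)
  | succ k ih =>
    obtain ⟨L, hL⟩ := ih
    obtain ⟨F, hF⟩ := h.window L
    refine ⟨(T + 3) * F, ?_⟩
    intro a ha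
    have hw : ∀ m : ℕ, ∃ i, a + m * F ≤ i ∧ i < a + m * F + F ∧ Hv w T i ∧ L < pr w i :=
      fun m => hF (a + m * F) (by omega)
    choose I hI using hw
    -- one of the flights takes off after `a`
    have hex : ∃ m, m < T + 3 ∧ a < I m - 3 * pr w (I m) := by
      by_contra hno
      push Not at hno
      have hmono : ∀ m m', m < m' → I m < I m' := by
        intro m m' hm
        have h1 := (hI m).2.1
        have h2 := (hI m').1
        have h3 : (m + 1) * F ≤ m' * F := Nat.mul_le_mul_right F hm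
        have h4 : (m + 1) * F = m * F + F := by ring
        omega
      have hinj : Function.Injective I := by
        intro m m' he
        rcases lt_trichotomy m m' with h1 | h1 | h1
        · have := hmono m m' h1
          omega
        · exact h1
        · have := hmono m' m h1
          omega
      have hc := h.cross (a := a) ha ((Finset.range (T + 3)).image I) (by
        intro i hi
        obtain ⟨m, hm, rfl⟩ := Finset.mem_image.1 hi
        have h1 := (hI m).1
        exact ⟨(hI m).2.2.1, hno m (Finset.mem_range.1 hm), by omega⟩)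
      rw [Finset.card_image_of_injective _ hinj, Finset.card_range] at hc
      omega
    obtain ⟨m, hm, ham⟩ := hex
    obtain ⟨h1, h2, h3, h4⟩ := hI m
    have h5 := (h.cube h3).2.1
    obtain ⟨c, s, hs1, hs2, hs3, hs4⟩ := hL (I m - 3 * pr w (I m)) (by omega)
    have hmF : m * F + F ≤ (T + 3) * F := by
      have : (m + 1) * F ≤ (T + 3) * F := Nat.mul_le_mul_right F hm
      have h6 : (m + 1) * F = m * F + F := by ring
      omega
    have hnot : I m ∉ s := by
      intro hin
      have := (hs4 _ hin).2.2.2.2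
      omega
    refine ⟨c, insert (I m) s, ?_, by omega, by omega, ?_⟩
    · rw [Finset.card_insert_of_notMem hnot, hs1]
    · intro i hi
      rcases Finset.mem_insert.1 hi with rfl | hi
      · exact ⟨h3, by omega, hs2, by omega, by omega⟩
      · obtain ⟨g1, g2, g3, g4, g5⟩ := hs4 i hi
        exact ⟨g1, by omega, g3, g4, by omega⟩

theorem absurd' (h : Sep w N T) : False := by
  obtain ⟨L, hL⟩ := h.stack (T + 3)
  obtain ⟨c, s, hs1, hs2, hs3, hs4⟩ := hL (T + 1) le_rfl
  have h1 := h.cross (a := c) (by omega) s (fun i hi =>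
    ⟨(hs4 i hi).1, (hs4 i hi).2.2.1, (hs4 i hi).2.2.2.1⟩)
  omega

end Sep

/-- Adjacent letters `≥ 3` are recurrent. -/
theorem adjacent {w : ℕ → ℤ} {N : ℕ} (h : Tail w N) (T : ℕ) :
    ∃ t, T ≤ t ∧ 3 ≤ w t ∧ 3 ≤ w (t + 1) := by
  by_contra hno
  push Not at hno
  have h1 : Sep w N (T + N + 1) := by
    refine ⟨h, by omega, ?_⟩
    intro t ht h2 h3
    have := hno t (by omega) h2
    omega
  exact h1.absurd'

end Pool.Agent.CurlB
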