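import Pool.Agent.CurlB.Balls

set_option autoImplicit false

/-! # Adjacent letters at least three

Adjacent late letters `≥ 3` produce the factor `3, 3, 2` or the factor `2, 3, 3, 3, 3, 4`, and neither
factor can be created by the curling rule: each is copied from the starting word. -/

namespace Pool.Agent.CurlB

open Pool.Agent.Helper16.Curl

/-- The factor `3, 3, 2` at `t`. -/
def PA (w : ℕ → ℤ) (t : ℕ) : Prop := w t = 3 ∧ w (t + 1) = 3 ∧ w (t + 2) = 2

/-- The factor `2, 3, 3, 3, 3, 4` at `t`. -/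
def PB (w : ℕ → ℤ) (t : ℕ) : Prop :=
  w t = 2 ∧ w (t + 1) = 3 ∧ w (t + 2) = 3 ∧ w (t + 3) = 3 ∧ w (t + 4) = 3 ∧ w (t + 5) = 4

variable {w : ℕ → ℤ} {N : ℕ}

/-- After a letter `2` at `i - 1`, there is no fourth power ending at `i + j` whose last copy
reaches `i - 1`. -/
theorem no_four (h : Tail w N) {b j p : ℕ} (hb : N ≤ b) (h2 : w b = 2) (hj : j ≤ p)
    (hr : Rep w (b + j) p 4) (hj0 : 0 < j) : False := by
  have h3 := hr.inner (t := b) (by omega) (by omega)
  have h4 := h.le_of_rep hb h3
  rw [h2] at h4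
  norm_num at h4

theorem block_start (h : Tail w N) {b : ℕ} (hb : N ≤ b) (h0 : w b = 2) (h1 : 3 ≤ w (b + 1))
    (h2 : 3 ≤ w (b + 2)) :
    PA w (b + 1) ∨ PB w b := by
  have hN := h.1
  have hK : ∀ t, N ≤ t → w (t + 1) ≤ w t + 1 := by
    intro t ht
    have g1 := K_succ_le (w := w) (n := t) (by omega)
    rw [h.2.1 t ht, h.2.1 (t + 1) (by omega)]
    exact_mod_cast g1
  have k1 := hK b hb
  have e1 : w (b + 1) = 3 := by omega
  have k2 := hK (b + 1) (by omega)
  have e2 : w (b + 2) = 3 := by
    have k2' : w (b + 2) ≤ w (b + 1) + 1 := k2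
    by_contra hne
    obtain ⟨p, hp⟩ := h.rep_of_le (t := b + 2) (k := 4) (by omega) (by push_cast; omega)
    have hp0 := hp.1
    by_cases hp2 : 2 ≤ p
    · exact no_four h hb h0 hp2 hp (by omega)
    · have hp1 : p = 1 := by omega
      subst hp1
      have := hp.2.2 b (by omega) (by omega)
      rw [h0, e1] at this
      norm_num at this
  have k3 : w (b + 3) ≤ w (b + 2) + 1 := hK (b + 2) (by omega)
  have l3 := h.2.2 (b + 3) (by omega)
  by_cases hc : w (b + 3) = 2
  · exact Or.inl ⟨e1, e2, hc⟩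
  right
  have e3 : w (b + 3) = 3 := by
    by_contra hne
    obtain ⟨p, hp⟩ := h.rep_of_le (t := b + 3) (k := 4) (by omega) (by push_cast; omega)
    have hp0 := hp.1
    by_cases hp2 : 3 ≤ p
    · exact no_four h hb h0 hp2 hp (by omega)
    · have hp1 : p = 1 ∨ p = 2 := by omega
      rcases hp1 with rfl | rfl
      · have := hp.2.2 b (by omega) (by omega)
        rw [h0, e1] at this
        norm_num at this
      · have := hp.2.2 b (by omega) (by omega)
        rw [h0, e2] at this
        norm_num at this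
  have k4 : w (b + 4) ≤ w (b + 3) + 1 := hK (b + 3) (by omega)
  have l4 : 3 ≤ w (b + 4) := by
    have hr : Rep w (b + 4) 1 3 := by
      refine ⟨one_pos, by omega, ?_⟩
      intro i hi hi2
      have : i = b + 1 ∨ i = b + 2 := by omega
      rcases this with rfl | rfl
      · rw [e1]; exact e2.symm
      · rw [e2]; exact e3.symm
    exact_mod_cast h.le_of_rep (by omega) hr
  have e4 : w (b + 4) = 3 := by
    by_contra hne
    obtain ⟨p, hp⟩ := h.rep_of_le (t := b + 4) (k := 4) (by omega) (by push_cast; omega)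
    have hp0 := hp.1
    by_cases hp2 : 4 ≤ p
    · exact no_four h hb h0 hp2 hp (by omega)
    · have hp1 : p = 1 ∨ p = 2 ∨ p = 3 := by omega
      rcases hp1 with rfl | rfl | rfl
      · have := hp.2.2 b (by omega) (by omega)
        rw [h0, e1] at this
        norm_num at this
      · have := hp.2.2 b (by omega) (by omega)
        rw [h0, e2] at this
        norm_num at this
      · have := hp.2.2 b (by omega) (by omega)
        rw [h0, e3] at this
        norm_num at this
  have k5 : w (b + 5) ≤ w (b + 4) + 1 := hK (b + 4) (by omega)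
  have l5 : 4 ≤ w (b + 5) := by
    have hr : Rep w (b + 5) 1 4 := by
      refine ⟨one_pos, by omega, ?_⟩
      intro i hi hi2
      have : i = b + 1 ∨ i = b + 2 ∨ i = b + 3 := by omega
      rcases this with rfl | rfl | rfl
      · rw [e1]; exact e2.symm
      · rw [e2]; exact e3.symm
      · rw [e3]; exact e4.symm
    exact_mod_cast h.le_of_rep (by omega) hr
  exact ⟨h0, e1, e2, e3, e4, by omega⟩

/-- One of the two factors is recurrent. -/
theorem rec_AB (h : Tail w N) (T : ℕ) : ∃ t, T ≤ t ∧ (PA w t ∨ PB w t) := by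
  classical
  obtain ⟨s, hs, hs2⟩ := h.two_rec (T + N)
  obtain ⟨t, ht, ht1, ht2⟩ := adjacent h s
  -- the last `2` before `t`
  obtain ⟨b, hb⟩ : ∃ b, b = Nat.findGreatest (fun j => w j = 2) t := ⟨_, rfl⟩
  have hb1 : w b = 2 := by
    rw [hb]
    exact Nat.findGreatest_spec (P := fun j => w j = 2) ht hs2
  have hb2 : s ≤ b := by
    rw [hb]
    exact Nat.le_findGreatest ht hs2
  have hb3 : b ≤ t := by
    rw [hb]
    exact Nat.findGreatest_le t
  have hb4 : ∀ j, b < j → j ≤ t → 3 ≤ w j := by
    intro j hj hj2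
    have h1 := h.2.2 j (by omega)
    have h2 : ¬ w j = 2 := by
      refine Nat.findGreatest_is_greatest (P := fun j => w j = 2) (n := t) ?_ hj2
      rw [← hb]
      exact hj
    omega
  have hbt : b ≠ t := by
    rintro rfl
    rw [hb1] at ht1
    norm_num at ht1
  have g1 : 3 ≤ w (b + 1) := hb4 (b + 1) (by omega) (by omega)
  have g2 : 3 ≤ w (b + 2) := by
    by_cases hc : b + 2 ≤ t
    · exact hb4 (b + 2) (by omega) hc
    · have : b + 1 = t := by omega
      have e : b + 2 = t + 1 := by omega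
      rw [e]
      exact ht2
  rcases block_start h (b := b) (by omega) hb1 g1 g2 with h3 | h3
  · exact ⟨b + 1, by omega, Or.inl h3⟩
  · exact ⟨b, by omega, Or.inr h3⟩

/-- The factor `3, 3, 2` is copied from the starting word. -/
theorem start_A (h : Tail w N) (hex : ∃ t, PA w t) : ∃ t, t + 2 < N ∧ PA w t := by
  classical
  obtain ⟨t, ht⟩ : ∃ t, t = Nat.find hex := ⟨_, rfl⟩
  have hspec : PA w t := by
    rw [ht]; exact Nat.find_spec hex
  have hmin : ∀ u, u < t → ¬ PA w u := fun u hu => Nat.find_min hex (by omega)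
  refine ⟨t, ?_, hspec⟩
  obtain ⟨h0, h1, h2⟩ := hspec
  by_contra hlt
  obtain ⟨p, hp0, hp1, hp2⟩ := h.rep_of_le (t := t + 3) (k := 2) (by omega)
    (by exact_mod_cast h.2.2 (t + 3) (by omega))
  have hp4 : 3 ≤ p := by
    by_contra hlt
    have h6 := hp2 (t + 2 - p) (by omega) (by omega)
    have h7 : t + 2 - p + p = t + 2 := by omega
    rw [h7, h2] at h6
    have h8 : p = 1 ∨ p = 2 := by omega
    rcases h8 with rfl | rfl
    · have e : t + 2 - 1 = t + 1 := by omega
      rw [e, h1] at h6; norm_num at h6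
    · have e : t + 2 - 2 = t := by omega
      rw [e, h0] at h6; norm_num at h6
  have e0 := hp2 (t - p) (by omega) (by omega)
  have e1 := hp2 (t - p + 1) (by omega) (by omega)
  have e2 := hp2 (t - p + 2) (by omega) (by omega)
  have f0 : t - p + p = t := by omega
  have f1 : t - p + 1 + p = t + 1 := by omega
  have f2 : t - p + 2 + p = t + 2 := by omega
  rw [f0, h0] at e0
  rw [f1, h1] at e1
  rw [f2, h2] at e2
  exact hmin (t - p) (by omega) ⟨e0, e1, e2⟩

/-- The factor `2, 3, 3, 3, 3, 4` is copied from the starting word. -/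
theorem start_B (h : Tail w N) (hex : ∃ t, PB w t) : ∃ t, t + 5 < N ∧ PB w t := by
  classical
  obtain ⟨t, ht⟩ : ∃ t, t = Nat.find hex := ⟨_, rfl⟩
  have hspec : PB w t := by
    rw [ht]; exact Nat.find_spec hex
  have hmin : ∀ u, u < t → ¬ PB w u := fun u hu => Nat.find_min hex (by omega)
  refine ⟨t, ?_, hspec⟩
  obtain ⟨h0, h1, h2, h3, h4, h5⟩ := hspec
  by_contra hlt
  obtain ⟨p, hp0, hp1, hp2⟩ := h.rep_of_le (t := t + 6) (k := 2) (by omega)
    (by exact_mod_cast h.2.2 (t + 6) (by omega))
  have hp4 : 6 ≤ p := by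
    by_contra hlt
    have h6 := hp2 (t + 5 - p) (by omega) (by omega)
    have h7 : t + 5 - p + p = t + 5 := by omega
    rw [h7, h5] at h6
    have h8 : p = 1 ∨ p = 2 ∨ p = 3 ∨ p = 4 ∨ p = 5 := by omega
    rcases h8 with rfl | rfl | rfl | rfl | rfl
    · have e : t + 5 - 1 = t + 4 := by omega
      rw [e, h4] at h6; norm_num at h6
    · have e : t + 5 - 2 = t + 3 := by omega
      rw [e, h3] at h6; norm_num at h6
    · have e : t + 5 - 3 = t + 2 := by omega
      rw [e, h2] at h6; norm_num at h6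
    · have e : t + 5 - 4 = t + 1 := by omega
      rw [e, h1] at h6; norm_num at h6
    · have e : t + 5 - 5 = t := by omega
      rw [e, h0] at h6; norm_num at h6
  have e0 := hp2 (t - p) (by omega) (by omega)
  have e1 := hp2 (t - p + 1) (by omega) (by omega)
  have e2 := hp2 (t - p + 2) (by omega) (by omega)
  have e3 := hp2 (t - p + 3) (by omega) (by omega)
  have e4 := hp2 (t - p + 4) (by omega) (by omega)
  have e5 := hp2 (t - p + 5) (by omega) (by omega)
  have f0 : t - p + p = t := by omega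
  have f1 : t - p + 1 + p = t + 1 := by omega
  have f2 : t - p + 2 + p = t + 2 := by omega
  have f3 : t - p + 3 + p = t + 3 := by omega
  have f4 : t - p + 4 + p = t + 4 := by omega
  have f5 : t - p + 5 + p = t + 5 := by omega
  rw [f0, h0] at e0
  rw [f1, h1] at e1
  rw [f2, h2] at e2
  rw [f3, h3] at e3
  rw [f4, h4] at e4
  rw [f5, h5] at e5
  exact hmin (t - p) (by omega) ⟨e0, e1, e2, e3, e4, e5⟩

/-- The starting word contains one of the two factors. -/
theorem start_AB (h : Tail w N) :
    (∃ t, t + 2 < N ∧ PA w t) ∨ ∃ t, t + 5 < N ∧ PB w t := by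
  obtain ⟨t, _, h1 | h1⟩ := rec_AB h 0
  · exact Or.inl (start_A h ⟨t, h1⟩)
  · exact Or.inr (start_B h ⟨t, h1⟩)

end Pool.Agent.CurlB
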